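import Pool.Agent.H4.HN

set_option autoImplicit false

namespace Pool.Agent.Results.MP_03a7fb_al.Example

/-- The Laplace operator on formal power series in `z_1, …, z_n`. -/
noncomputable def laplace {n : ℕ} (P : MvPowerSeries (Fin n) ℂ) : MvPowerSeries (Fin n) ℂ :=
  ∑ i : Fin n, MvPowerSeries.pderiv ℂ i (MvPowerSeries.pderiv ℂ i P)

/-- The Hessian matrix of a formal power series. -/
noncomputable def hessian {n : ℕ} (P : MvPowerSeries (Fin n) ℂ) :
    Matrix (Fin n) (Fin n) (MvPowerSeries (Fin n) ℂ) :=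
  Matrix.of fun i j => MvPowerSeries.pderiv ℂ i (MvPowerSeries.pderiv ℂ j P)

/-- `P` is a polynomial. -/
def IsPoly {n : ℕ} (P : MvPowerSeries (Fin n) ℂ) : Prop :=
  ∃ p : MvPolynomial (Fin n) ℂ, (p : MvPowerSeries (Fin n) ℂ) = P

/-- The power series `P = a (1 / (1 - x) - 1 - x) + a ^ 2 w` in four variables, where
`x = z_1 + i z_2`, `w = z_1 - i z_2` and `a = z_3 + i z_4`. -/
noncomputable def P : MvPowerSeries (Fin 4) ℂ :=
  (MvPowerSeries.X 2 + MvPowerSeries.C Complex.I * MvPowerSeries.X 3) *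
      ((1 - (MvPowerSeries.X 0 + MvPowerSeries.C Complex.I * MvPowerSeries.X 1))⁻¹ - 1 -
        (MvPowerSeries.X 0 + MvPowerSeries.C Complex.I * MvPowerSeries.X 1)) +
    (MvPowerSeries.X 2 + MvPowerSeries.C Complex.I * MvPowerSeries.X 3) ^ 2 *
      (MvPowerSeries.X 0 - MvPowerSeries.C Complex.I * MvPowerSeries.X 1)

lemma lap_eq (Q : MvPowerSeries (Fin 4) ℂ) (m : ℕ) :
    laplace^[m] Q = Pool.Agent.H4.HN.lap^[m] Q := rfl

/-- `P` is a Hessian nilpotent formal power series over `ℂ` which is not a polynomial, and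
`Δ^m P^(m+1) ≠ 0` for every `m ≥ 2`. -/
theorem result : IsNilpotent (hessian P) ∧ ¬ IsPoly P ∧
    ∀ m : ℕ, 2 ≤ m → laplace^[m] (P ^ (m + 1)) ≠ 0 := by
  refine ⟨⟨4, Pool.Agent.H4.HN.hess_nilp⟩, ?_, ?_⟩
  · rintro ⟨p, hp⟩
    exact Pool.Agent.H4.HN.not_poly p hp
  · intro m hm
    rw [lap_eq]
    exact Pool.Agent.H4.HN.lap_ne m hm

end Pool.Agent.Results.MP_03a7fb_al.Example
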